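import Pool.Agent.Y119.HG.Defs3

/-!
# Project HG: graded Lie algebras (job HG-GR), symmetry from complex conjugation (job HG-TRC)
-/

set_option autoImplicit false

open Matrix

namespace Pool.Agent.Y44.HG

open Pool.Agent.Y119.HG

/-- the value at `ad La / 2` of a Lagrange polynomial -/
def Pm {n : ℕ} {L : Type} [Field L] (d : ℤ) (s : Finset ℤ) (y : Matrix (Fin n) (Fin n) L) :
    Matrix (Fin n) (Fin n) L :=
  Matrix.of fun i j =>
    (∏ e ∈ s, (((((j : ℕ) : ℤ) - (i : ℕ) - e : ℤ) : L) / ((d - e : ℤ) : L))) * y i j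

theorem Pm_mem {L : Type} [Field L] [CharZero L] {n : ℕ}
    {h : Submodule L (Matrix (Fin n) (Fin n) L)}
    (hb : ∀ x ∈ h, ∀ y ∈ h, x * y - y * x ∈ h) (hLa : La n L ∈ h)
    {y : Matrix (Fin n) (Fin n) L} (hy : y ∈ h) (d : ℤ) (s : Finset ℤ) : Pm d s y ∈ h := by
  induction s using Finset.induction_on with
  | empty =>
    have : Pm d ∅ y = y := by
      ext i j
      simp [Pm]
    rw [this]
    exact hy
  | insert e s he ih =>
    have h1 := hb _ hLa _ ih
    have h2 : Pm d (insert e s) y = (1 / ((d - e : ℤ) : L)) •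
        ((1 / 2 : L) • (La n L * Pm d s y - Pm d s y * La n L) - (e : L) • Pm d s y) := by
      ext i j
      simp only [Matrix.smul_apply, Matrix.sub_apply, La, Matrix.diagonal_mul,
        Matrix.mul_diagonal, smul_eq_mul]
      simp only [Pm, Matrix.of_apply]
      rw [Finset.prod_insert he]
      push_cast
      ring
    rw [h2]
    exact h.smul_mem _ (h.sub_mem (h.smul_mem _ h1) (h.smul_mem _ ih))

theorem t_GR : T_GR := by
  intro L _ _ n h hb hLa y hy d
  have h1 := Pm_mem hb hLa hy d ((Finset.Ioo (-(n : ℤ)) n).erase d)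
  have h2 : Pm d ((Finset.Ioo (-(n : ℤ)) n).erase d) y = dg d y := by
    ext i j
    simp only [Pm, dg, Matrix.of_apply]
    split_ifs with hd
    · rw [Finset.prod_eq_one, one_mul]
      intro e he
      have he' := (Finset.mem_erase.mp he).1
      rw [hd]
      have : ((d - e : ℤ) : L) ≠ 0 := by
        rw [Int.cast_ne_zero]
        omega
      exact div_self this
    · rw [Finset.prod_eq_zero (i := ((j : ℕ) : ℤ) - (i : ℕ)), zero_mul]
      · rw [Finset.mem_erase, Finset.mem_Ioo]
        have hi := i.2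
        have hj := j.2
        refine ⟨hd, ?_, ?_⟩ <;> omega
      · simp
  rwa [h2] at h1

/-- products with antidiagonal matrices -/
theorem anti_entry {L : Type} [Field L] {n : ℕ} {A A' : Matrix (Fin n) (Fin n) L}
    (hA1 : A * A' = 1) (hA : ∀ i j : Fin n, (i : ℕ) + j + 1 ≠ n → A i j = 0) (i j : Fin n) :
    A i i.rev * A' i.rev j = if i = j then 1 else 0 := by
  have h1 : (A * A') i j = A i i.rev * A' i.rev j := by
    rw [Matrix.mul_apply]
    refine Finset.sum_eq_single i.rev ?_ (fun h => absurd (Finset.mem_univ _) h)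
    intro k _ hk
    rw [hA i k, zero_mul]
    intro h2
    apply hk
    ext
    rw [Fin.val_rev]
    omega
  rw [← h1, hA1, Matrix.one_apply]

theorem t_TRC : T_TRC := by
  intro L _ n c U U' A A' hUU hA1 hc hA h hch hsp i j hij y hy
  have hA0 : ∀ i : Fin n, A i i.rev ≠ 0 := by
    intro i h0
    have := anti_entry hA1 hA i i
    rw [h0, zero_mul, if_pos rfl] at this
    exact zero_ne_one this
  have hA'0 : ∀ i : Fin n, A' i i.rev ≠ 0 := by
    intro i h0
    have := anti_entry hA1 hA i.rev i.rev
    rw [Fin.rev_rev, h0, mul_zero, if_pos rfl] at this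
    exact zero_ne_one this
  have hA'z : ∀ i k : Fin n, k ≠ i.rev → A' i k = 0 := by
    intro i k hk
    have := anti_entry hA1 hA i.rev k
    rw [Fin.rev_rev, if_neg (Ne.symm hk)] at this
    rcases mul_eq_zero.mp this with h1 | h1
    · exact absurd h1 (by have := hA0 i.rev; rwa [Fin.rev_rev] at this)
    · exact h1
  have hAz : ∀ k j : Fin n, k ≠ j.rev → A k j = 0 := by
    intro k j hk
    apply hA
    intro h2
    apply hk
    ext
    rw [Fin.val_rev]
    omega
  -- the inverse of the conjugate
  have hUc : U'.map c = U' * A' := by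
    have h1 : U.map c * U'.map c = 1 := by
      rw [← Matrix.map_mul, hUU]
      exact Matrix.map_one c (map_zero c) (map_one c)
    have h2 : (A * U) * (U' * A') = 1 := by
      rw [Matrix.mul_assoc, ← Matrix.mul_assoc U, hUU, Matrix.one_mul, hA1]
    rw [hc] at h1
    have h3 : U'.map c * (A * U) = 1 := mul_eq_one_comm.mp h1
    calc U'.map c = U'.map c * ((A * U) * (U' * A')) := by rw [h2, Matrix.mul_one]
      _ = (U'.map c * (A * U)) * (U' * A') := by simp only [Matrix.mul_assoc]
      _ = U' * A' := by rw [h3, Matrix.one_mul]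
  -- the symmetry
  have hsym : ∀ z ∈ hU h U U', A' * z.map c * A ∈ hU h U U' := by
    intro z hz
    have h1 : (U' * z * U).map c ∈ h := hch _ hz
    rw [Matrix.map_mul, Matrix.map_mul, hUc, hc] at h1
    show U' * (A' * z.map c * A) * U ∈ h
    have h2 : U' * (A' * z.map c * A) * U = U' * A' * z.map c * (A * U) := by
      simp only [Matrix.mul_assoc]
    rw [h2]
    exact h1
  have hent : ∀ z : Matrix (Fin n) (Fin n) L,
      (A' * z.map c * A) i j = A' i i.rev * c (z i.rev j.rev) * A j.rev j := by
    intro z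
    rw [Matrix.mul_apply, Finset.sum_eq_single j.rev]
    · rw [Matrix.mul_apply, Finset.sum_eq_single i.rev]
      · rfl
      · intro k _ hk
        rw [hA'z i k hk, zero_mul]
      · exact fun h => absurd (Finset.mem_univ _) h
    · intro k _ hk
      rw [hAz k j hk, mul_zero]
    · exact fun h => absurd (Finset.mem_univ _) h
  have hz : y i.rev j.rev = 0 := by
    have h1 := hij _ (hsym y hy)
    rw [hent] at h1
    rcases mul_eq_zero.mp h1 with h2 | h2
    · rcases mul_eq_zero.mp h2 with h3 | h3
      · exact absurd h3 (hA'0 i)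
      · exact (map_eq_zero c).mp h3
    · exact absurd h2 (by have := hA0 j.rev; rwa [Fin.rev_rev] at this)
  have hJ : ∀ a b : Fin n, b ≠ a.rev → Jn n L a b = 0 := by
    intro a b hb
    simp only [Jn, Matrix.of_apply]
    rw [if_neg]
    intro h2
    apply hb
    ext
    rw [Fin.val_rev]
    omega
  have hJ1 : ∀ a : Fin n, Jn n L a a.rev = (-1) ^ (a : ℕ) := by
    intro a
    simp only [Jn, Matrix.of_apply]
    rw [if_pos]
    rw [Fin.val_rev]
    have := a.2
    omega
  have h1 : (y * Jn n L + Jn n L * yᵀ) j i.rev = 0 := by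
    have h2 : y * Jn n L + Jn n L * yᵀ = 0 := hsp y hy
    rw [h2]
    rfl
  have h2 : (y * Jn n L) j i.rev = y j i * (-1) ^ (i : ℕ) := by
    rw [Matrix.mul_apply, Finset.sum_eq_single i]
    · rw [hJ1]
    · intro k _ hk
      rw [hJ k i.rev, mul_zero]
      intro h3
      exact hk (Fin.rev_injective h3).symm
    · exact fun h => absurd (Finset.mem_univ _) h
  have h3 : (Jn n L * yᵀ) j i.rev = 0 := by
    rw [Matrix.mul_apply, Finset.sum_eq_zero]
    intro k _
    by_cases hk : k = j.rev
    · rw [hk, Matrix.transpose_apply, hz, mul_zero]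
    · rw [hJ j k hk, zero_mul]
  rw [Matrix.add_apply, h2, h3, add_zero] at h1
  rcases mul_eq_zero.mp h1 with h4 | h4
  · exact h4
  · exact absurd h4 (pow_ne_zero _ (neg_ne_zero.mpr one_ne_zero))

end Pool.Agent.Y44.HG
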