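import Pool.Agent.Y119.HG.Defs3
import Pool.Agent.Y119.HG.Defs2

/-!
# Project HG: the kernel argument in the coordinates `Fin (2 m)` (job HG-KER2)
-/

set_option autoImplicit false

open Matrix

namespace Pool.Agent.Y44.HG

open Pool.Agent.Y119.HG

/-- derivations and products of matrices -/
theorem map_mul_der {k L : Type} [Field k] [Field L] [Algebra k L] (D : Derivation k L L)
    {a b c : Type} [Fintype b] (A : Matrix a b L) (B : Matrix b c L) :
    (A * B).map D = A.map D * B + A * B.map D := by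
  ext i j
  rw [Matrix.map_apply, Matrix.add_apply, Matrix.mul_apply, Matrix.mul_apply, Matrix.mul_apply,
    map_sum, ← Finset.sum_add_distrib]
  refine Finset.sum_congr rfl fun l _ => ?_
  rw [D.leibniz, smul_eq_mul, smul_eq_mul, Matrix.map_apply, Matrix.map_apply]
  ring

theorem Rm_map_der {k L : Type} [Field k] [Field L] [Algebra k L] (D : Derivation k L L)
    (m : ℕ) : (Rm m L).map D = 0 := by
  have h1 : D (1 : L) = 0 := D.map_one_eq_zero
  have h2 : D (-1 : L) = 0 := by rw [map_neg, h1, neg_zero]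
  have h3 : ∀ j : ℕ, D ((-1 : L) ^ j) = 0 := by
    intro j
    rcases neg_one_pow_eq_or L j with h | h
    · rw [h, h1]
    · rw [h, h2]
  ext s l
  rw [Matrix.map_apply, Matrix.zero_apply]
  cases s with
  | inl i =>
    simp only [Rm, Matrix.of_apply]
    split_ifs
    · exact h1
    · exact map_zero D
  | inr j =>
    simp only [Rm, Matrix.of_apply]
    split_ifs
    · exact h3 j
    · exact map_zero D

/-- the blocks in the symplectic coordinates -/
def phi (m : ℕ) (L : Type) [Field L] :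
    Matrix (Fin (2 * m)) (Fin (2 * m)) L →ₗ[L] Matrix (Fin m) (Fin m) L × Matrix (Fin m) (Fin m) L where
  toFun y := ((Rm m L * y * (Rm m L)ᵀ).toBlocks₁₁, (Rm m L * y * (Rm m L)ᵀ).toBlocks₁₂)
  map_add' x y := by
    rw [Matrix.mul_add, Matrix.add_mul]
    rfl
  map_smul' a x := by
    rw [Matrix.mul_smul, Matrix.smul_mul]
    rfl

theorem lower_zero {L : Type} [Field L] {m : ℕ} {y : Matrix (Fin (2 * m)) (Fin (2 * m)) L}
    (hy : ∀ i j, j ≤ i → y i j = 0) (j i : Fin m) :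
    (Rm m L * y * (Rm m L)ᵀ) (Sum.inr j) (Sum.inl i) = 0 := by
  rw [Matrix.mul_apply]
  refine Finset.sum_eq_zero fun l' _ => ?_
  rw [Matrix.transpose_apply]
  by_cases h1 : (l' : ℕ) = i
  · have h2 : (Rm m L * y) (Sum.inr j) l' = 0 := by
      rw [Matrix.mul_apply]
      refine Finset.sum_eq_zero fun l _ => ?_
      by_cases h3 : (j : ℕ) + l + 1 = 2 * m
      · rw [hy l l', mul_zero]
        have := i.2
        have := j.2
        have h4 : (l' : ℕ) ≤ (l : ℕ) := by omega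
        exact h4
      · simp only [Rm, Matrix.of_apply]
        rw [if_neg h3, zero_mul]
    rw [h2, zero_mul]
  · simp only [Rm, Matrix.of_apply]
    rw [if_neg h1, mul_zero]

theorem phi_Ysp (hR : T_RM) {L : Type} [Field L] {m : ℕ}
    {y : Matrix (Fin (2 * m)) (Fin (2 * m)) L} (hy : y ∈ spU (2 * m) L) :
    Rm m L * y * (Rm m L)ᵀ = Ysp (phi m L y).1 (phi m L y).2 ∧ ((phi m L y).2)ᵀ = (phi m L y).2 := by
  obtain ⟨h1, h2, h3, -⟩ := hR L m
  obtain ⟨hs, hu⟩ := hy
  set Y := Rm m L * y * (Rm m L)ᵀ with hY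
  have hJ : Y * Om m L + Om m L * Yᵀ = 0 := by
    have e1 : Y * Om m L = Rm m L * (y * Jn (2 * m) L) * (Rm m L)ᵀ := by
      rw [hY, ← h3]
      calc Rm m L * y * (Rm m L)ᵀ * (Rm m L * Jn (2 * m) L * (Rm m L)ᵀ)
          = Rm m L * y * ((Rm m L)ᵀ * Rm m L) * Jn (2 * m) L * (Rm m L)ᵀ := by
            simp only [Matrix.mul_assoc]
        _ = _ := by rw [h2, Matrix.mul_one]; simp only [Matrix.mul_assoc]
    have e2 : Om m L * Yᵀ = Rm m L * (Jn (2 * m) L * yᵀ) * (Rm m L)ᵀ := by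
      rw [hY, ← h3, Matrix.transpose_mul, Matrix.transpose_mul, Matrix.transpose_transpose]
      calc Rm m L * Jn (2 * m) L * (Rm m L)ᵀ * (Rm m L * (yᵀ * (Rm m L)ᵀ))
          = Rm m L * Jn (2 * m) L * ((Rm m L)ᵀ * Rm m L) * yᵀ * (Rm m L)ᵀ := by
            simp only [Matrix.mul_assoc]
        _ = _ := by rw [h2, Matrix.mul_one]; simp only [Matrix.mul_assoc]
    rw [e1, e2, ← Matrix.add_mul, ← Matrix.mul_add, show y * Jn (2 * m) L + Jn (2 * m) L * yᵀ = 0
      from hs, Matrix.mul_zero, Matrix.zero_mul]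
  have hb : Y = fromBlocks Y.toBlocks₁₁ Y.toBlocks₁₂ Y.toBlocks₂₁ Y.toBlocks₂₂ :=
    (Matrix.fromBlocks_toBlocks Y).symm
  have h21 : Y.toBlocks₂₁ = 0 := by
    ext j i
    exact lower_zero hu j i
  rw [h21] at hb
  rw [hb, Om, Matrix.fromBlocks_transpose, Matrix.fromBlocks_multiply,
    Matrix.fromBlocks_multiply, Matrix.fromBlocks_add, ← Matrix.fromBlocks_zero,
    Matrix.fromBlocks_inj] at hJ
  obtain ⟨a1, a2, a3, a4⟩ := hJ
  simp only [Matrix.mul_zero, Matrix.mul_one, Matrix.mul_neg, Matrix.zero_mul, Matrix.one_mul,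
    Matrix.neg_mul, zero_add, add_zero, Matrix.transpose_zero, neg_zero] at a1 a2 a3 a4
  have hZ : (Y.toBlocks₁₂)ᵀ = Y.toBlocks₁₂ := by
    rw [neg_add_eq_sub, sub_eq_zero] at a1
    exact a1
  have hX : Y.toBlocks₂₂ = -(Y.toBlocks₁₁)ᵀ := by
    rw [← sub_eq_add_neg, ← neg_add', neg_eq_zero] at a3
    exact eq_neg_of_add_eq_zero_left a3
  refine ⟨?_, hZ⟩
  rw [hX] at hb
  exact hb

theorem t_KER2 (hK : T_KER) (hR : T_RM) : T_KER2 := by
  intro k L _ _ _ m G T hD V hV hfr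
  obtain ⟨h1, h2, h3, -⟩ := hR L m
  have hinj : Function.Injective ((phi m L).domRestrict V) := by
    rw [← LinearMap.ker_eq_bot, LinearMap.ker_eq_bot']
    rintro ⟨y, hy⟩ h0
    have h0' : phi m L y = 0 := h0
    have h4 := (phi_Ysp hR (hV hy)).1
    rw [h0'] at h4
    have h5 : Ysp ((0 : Matrix (Fin m) (Fin m) L × Matrix (Fin m) (Fin m) L)).1
        ((0 : Matrix (Fin m) (Fin m) L × Matrix (Fin m) (Fin m) L)).2 = 0 := by
      simp [Ysp]
    rw [h5] at h4
    have h6 : y = 0 := by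
      calc y = ((Rm m L)ᵀ * Rm m L) * y * ((Rm m L)ᵀ * Rm m L) := by
            rw [h2, Matrix.one_mul, Matrix.mul_one]
        _ = (Rm m L)ᵀ * (Rm m L * y * (Rm m L)ᵀ) * Rm m L := by simp only [Matrix.mul_assoc]
        _ = 0 := by rw [h4, Matrix.mul_zero, Matrix.zero_mul]
    exact Subtype.ext h6
  have hfr' : Module.finrank L (V.map (phi m L)) = Module.finrank L V := by
    rw [← LinearMap.range_domRestrict]
    exact LinearMap.finrank_range_of_inj hinj
  obtain ⟨p, hp, hp0, D, z, hG, hT⟩ := hK k L m (Fin (2 * m)) G T hD (V.map (phi m L)) (by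
    rintro p ⟨y, hy, rfl⟩
    exact (phi_Ysp hR (hV hy)).2) (by rw [hfr']; exact hfr)
  obtain ⟨y, hy, rfl⟩ := hp
  refine ⟨y, hy, ?_, D, z, ?_⟩
  · rintro rfl
    exact hp0 (map_zero _)
  · have h4 := (phi_Ysp hR (hV hy)).1
    rw [← h4] at hG
    have hRt : ((Rm m L)ᵀ).map D = 0 := by
      rw [Matrix.transpose_map, Rm_map_der, Matrix.transpose_zero]
    rw [map_mul_der, hRt, Matrix.zero_mul, zero_add, map_mul_der, hG, hT]
    calc (Rm m L)ᵀ * (Rm m L * y * (Rm m L)ᵀ * G * T + G * z • T)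
        = ((Rm m L)ᵀ * Rm m L) * y * (Rm m L)ᵀ * G * T + z • ((Rm m L)ᵀ * (G * T)) := by
          rw [Matrix.mul_add, Matrix.mul_smul, Matrix.mul_smul]
          simp only [Matrix.mul_assoc]
      _ = _ := by
          rw [h2, Matrix.one_mul, Matrix.add_mul, Matrix.smul_mul, Matrix.one_mul]
          simp only [Matrix.mul_assoc]

end Pool.Agent.Y44.HG
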